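import Pool.Agent.Q8.NS.Alg

/-!
# The rank of a 2-isogenous curve, and the statement for one curve
-/

set_option autoImplicit false
set_option linter.unusedSectionVars false

namespace Pool.Agent.Q8.NS

open WeierstrassCurve

open Pool.Agent.TH841.SH.D

open Pool.Agent.TH841.LS (WI LocI T0 coc)

open Pool.Agent.TH841.PT (EQ isR_EQ)

open Pool.Agent.TH841.NO (SQ fo)

open Pool.Agent.Y676.IS

open Pool.Agent.H437R2.Man.MW (crv pt_fg)

lemma exists_bcE (W : WeierstrassCurve ℚ) : Nonempty (Pt W ℚ ≃+ W.toAffine.Point) := by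
  have e : ∀ (V : WeierstrassCurve ℚ) (d : DecidableEq ℚ), V = W →
      Nonempty (@AddEquiv V.toAffine.Point W.toAffine.Point
        (@Affine.Point.instAddCommGroup ℚ _ V.toAffine
          d).toAddCommMonoid.toAddCommSemigroup.toAddCommMagma.toAdd
        (@Affine.Point.instAddCommGroup ℚ _ W.toAffine
          instDecidableEqRat).toAddCommMonoid.toAddCommSemigroup.toAddCommMagma.toAdd) := by
    rintro V d rfl
    obtain rfl : d = instDecidableEqRat := Subsingleton.elim _ _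
    exact ⟨AddEquiv.refl _⟩
  exact e (W.baseChange ℚ) (Classical.decEq ℚ) (bcQ W)

lemma fg_EQ {A B : ℤ} (h : A ≠ B) (hA : A ≠ 0) (hB : B ≠ 0) :
    Module.Finite ℤ (EQ A B).toAffine.Point := by
  have hW : EQ A B = crv (-((0 : ℤ) : ℚ)) (-(A : ℚ)) (-(B : ℚ)) := by
    apply WeierstrassCurve.ext
    · rfl
    · show -((A : ℚ) + B) = -((0 : ℤ) : ℚ) + -(A : ℚ) + -(B : ℚ)
      push_cast
      ring
    · rfl
    · show (A : ℚ) * B = -((0 : ℤ) : ℚ) * -(A : ℚ) + -((0 : ℤ) : ℚ) * -(B : ℚ) + -(A : ℚ) * -(B : ℚ)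
      push_cast
      ring
    · show (0 : ℚ) = -((0 : ℤ) : ℚ) * -(A : ℚ) * -(B : ℚ)
      push_cast
      ring
  have hfg : AddGroup.FG (EQ A B).toAffine.Point := by
    rw [hW]
    refine pt_fg ?_ ?_ ?_
    · intro h0
      apply hA
      have := neg_injective h0
      exact_mod_cast this.symm
    · intro h0
      apply hB
      have := neg_injective h0
      exact_mod_cast this.symm
    · intro h0
      apply h
      have := neg_injective h0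
      exact_mod_cast this
  exact Module.Finite.iff_addGroup_fg.2 hfg

/-- the rank of the isogenous curve -/
theorem rk_WI {A B : ℤ} (h : A ≠ B) (hA : A ≠ 0) (hB : B ≠ 0) : rk (WI A B) ≤ rk (EQ A B) := by
  obtain ⟨ψ, φ, h1, -, -⟩ := exists_NH h hA hB
  obtain ⟨e1⟩ := exists_bcE (WI A B)
  obtain ⟨e2⟩ := exists_bcE (EQ A B)
  have := fg_EQ h hA hB
  refine rank_le ((e2.toAddMonoidHom.comp (ψ.f ℚ)).comp e1.symm.toAddMonoidHom) fun x hx => ?_
  have h2 : e2 (ψ.f ℚ (e1.symm x)) = 0 := hx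
  have h3 : ψ.f ℚ (e1.symm x) = 0 := (map_eq_zero_iff e2 e2.injective).1 h2
  have h4 := h1 ℚ (e1.symm x)
  rw [h3, map_zero, ← map_add] at h4
  exact (map_eq_zero_iff e1.symm e1.symm.injective).1 h4.symm

/-- the properties of one pair -/
def OK1 (R : ℕ) (κ δ l : ℝ) (A B : ℤ) : Prop :=
  rk (EQ A B) ≤ R ∧ (∀ j : ℕ, Finite (ShaTor (EQ A B) (2 ^ j))) ∧
    (∀ j : ℕ, 1 ≤ j → Nat.card (ShaTor (EQ A B) (2 ^ j)) ≤ 2 ^ (R * j)) ∧
    rk (WI A B) ≤ R ∧ (∀ j : ℕ, Finite (ShaTor (WI A B) (2 ^ j))) ∧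
    (κ - δ) * l ≤ Real.logb 2 (Nat.card (ShaTor (WI A B) 2)) ∧
    Real.logb 2 (Nat.card (ShaTor (WI A B) 2)) ≤ (κ + δ) * l ∧
    ∀ j : ℕ, 1 ≤ j → Nat.card (ShaTor (WI A B) (2 ^ j)) ≤
      2 ^ (R * j) * Nat.card (ShaTor (WI A B) 2)

lemma OK1.mono {R R' : ℕ} {κ δ l : ℝ} {A B : ℤ} (h : OK1 R κ δ l A B) (hR : R ≤ R') :
    OK1 R' κ δ l A B := by
  obtain ⟨h1, h2, h3, h4, h5, h6, h7, h8⟩ := h
  refine ⟨h1.trans hR, h2, fun j hj => (h3 j hj).trans ?_, h4.trans hR, h5, h6, h7,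
    fun j hj => (h8 j hj).trans (Nat.mul_le_mul_right _ ?_)⟩
  · exact Nat.pow_le_pow_right (by norm_num) (Nat.mul_le_mul_right _ hR)
  · exact Nat.pow_le_pow_right (by norm_num) (Nat.mul_le_mul_right _ hR)

/-- **one pair** -/
theorem one_pair {A B : ℤ} (h : A ≠ B) (hA : A ≠ 0) (hB : B ≠ 0) {R : ℕ} {κ δ l : ℝ}
    (hfin : ∀ j : ℕ, Finite (ShaTor (EQ A B) (2 ^ j)))
    (hbd : ∀ j : ℕ, 1 ≤ j → (2 : ℝ) ^ rk (EQ A B) *
      (Nat.card (ShaTor (EQ A B) (2 ^ j)) : ℝ) ^ ((1 : ℝ) / j) ≤ 2 ^ (R + 1))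
    (hk : ∃ k : ℕ, (κ - δ) * l ≤ k ∧ ∃ φ : (Fin k → ZMod 2) →+ Sha (WI A B),
      Function.Injective φ)
    (hfo : (fo (-(A + B)) (A * B) : ℝ) ≤ (κ + δ / 2) * l) (hl : (R : ℝ) + 2 ≤ δ / 2 * l) :
    OK1 (R + 1) κ δ l A B := by
  have hpos : ∀ j : ℕ, 1 ≤ Nat.card (ShaTor (EQ A B) (2 ^ j)) := by
    intro j
    have := hfin j
    have : Nonempty (ShaTor (EQ A B) (2 ^ j)) := ⟨⟨0, smul_zero _⟩⟩
    exact Nat.card_pos
  have hcard : ∀ j : ℕ, 1 ≤ j → Nat.card (ShaTor (EQ A B) (2 ^ j)) ≤ 2 ^ ((R + 1) * j) := by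
    intro j hj
    have h1 := hbd j hj
    have hj0 : (0 : ℝ) < j := by exact_mod_cast hj
    have hc : (1 : ℝ) ≤ (Nat.card (ShaTor (EQ A B) (2 ^ j)) : ℝ) := by exact_mod_cast hpos j
    have h2 : (Nat.card (ShaTor (EQ A B) (2 ^ j)) : ℝ) ^ ((1 : ℝ) / j) ≤ 2 ^ (R + 1) := by
      refine le_trans ?_ h1
      have h3 : (1 : ℝ) ≤ 2 ^ rk (EQ A B) := one_le_pow₀ (by norm_num)
      have h4 : (0 : ℝ) ≤ (Nat.card (ShaTor (EQ A B) (2 ^ j)) : ℝ) ^ ((1 : ℝ) / j) :=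
        Real.rpow_nonneg (by linarith) _
      nlinarith
    have h5 : (Nat.card (ShaTor (EQ A B) (2 ^ j)) : ℝ) ≤ ((2 : ℝ) ^ (R + 1)) ^ (j : ℝ) := by
      have h6 := Real.rpow_le_rpow (Real.rpow_nonneg (by linarith) _) h2 hj0.le
      rw [← Real.rpow_mul (by linarith), one_div, inv_mul_cancel₀ hj0.ne', Real.rpow_one] at h6
      exact h6
    rw [Real.rpow_natCast, ← pow_mul] at h5
    exact_mod_cast h5
  have hrk : rk (EQ A B) ≤ R + 1 := by
    have h1 := hbd 1 le_rfl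
    rw [Nat.cast_one, div_one, Real.rpow_one] at h1
    have hc : (1 : ℝ) ≤ (Nat.card (ShaTor (EQ A B) (2 ^ 1)) : ℝ) := by exact_mod_cast hpos 1
    have h2 : (2 : ℝ) ^ rk (EQ A B) ≤ 2 ^ (R + 1) := by
      have h3 : (0 : ℝ) < 2 ^ rk (EQ A B) := by positivity
      nlinarith
    exact (pow_le_pow_iff_right₀ (by norm_num : (1 : ℝ) < 2)).1 h2
  have hf2 : Finite (ShaTor (EQ A B) 2) := by
    have := hfin 1
    rwa [pow_one] at this
  have hc2 : Nat.card (ShaTor (EQ A B) 2) ≤ 2 ^ (R + 1) := by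
    have := hcard 1 le_rfl
    rwa [pow_one, mul_one] at this
  obtain ⟨t1, t2⟩ := sha_two h hA hB hf2
  obtain ⟨k, hk1, φ, hφ⟩ := hk
  have t3 := le_card φ hφ t1
  have hW : 0 < Nat.card (ShaTor (WI A B) 2) := lt_of_lt_of_le (by positivity) t3
  have hWr : (0 : ℝ) < (Nat.card (ShaTor (WI A B) 2) : ℝ) := by exact_mod_cast hW
  refine ⟨hrk, hfin, hcard, (rk_WI h hA hB).trans hrk, fun j => (sha_pow h hA hB hfin j).1, ?_, ?_,
    fun j hj => ?_⟩
  · refine hk1.trans ?_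
    rw [Real.le_logb_iff_rpow_le (by norm_num) hWr, Real.rpow_natCast]
    exact_mod_cast t3
  · have h1 : Nat.card (ShaTor (WI A B) 2) ≤ 2 ^ (fo (-(A + B)) (A * B) + 1 + (R + 1)) := by
      rw [pow_add]
      exact t2.trans (Nat.mul_le_mul_left _ hc2)
    have h2 : Real.logb 2 (Nat.card (ShaTor (WI A B) 2)) ≤ fo (-(A + B)) (A * B) + 1 + (R + 1) := by
      rw [Real.logb_le_iff_le_rpow (by norm_num) hWr]
      have h3 : ((fo (-(A + B)) (A * B) : ℝ) + 1 + (R + 1)) =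
          ((fo (-(A + B)) (A * B) + 1 + (R + 1) : ℕ) : ℝ) := by push_cast; ring
      rw [h3, Real.rpow_natCast]
      exact_mod_cast h1
    linarith
  · refine (sha_pow h hA hB hfin j).2.trans ?_
    rw [mul_comm]
    exact Nat.mul_le_mul_right _ (hcard j hj)

end Pool.Agent.Q8.NS
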