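import Pool.Agent.Y676.IS.Fin
import Pool.Agent.Y497.IS.LCB
import Pool.Agent.Y500.IS.LQU

/-!
# The torsion of the Tate-Shafarevich group of a 2-isogenous curve
-/

set_option autoImplicit false
set_option linter.unusedSectionVars false

namespace Pool.Agent.Q8.NS

open WeierstrassCurve

open Pool.Agent.TH841.SH.D

open Pool.Agent.TH841.LS (WI LocI T0 coc)

open Pool.Agent.TH841.PT (EQ isR_EQ)

open Pool.Agent.TH841.NO (SQ fo)

open Pool.Agent.Y676.IS

section

attribute [-instance] DivisionRing.toRatAlgebra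

/-- the classes killed by the isogeny -/
theorem ker0 {A B : ℤ} (h : A ≠ B) (hA : A ≠ 0) (hB : B ≠ 0)
    (ψ : NH (WI A B) (EQ A B)) (φ : NH (EQ A B) (WI A B))
    (h2 : ∀ (L : Type) [Field L] [Algebra ℚ L] (P : Pt (EQ A B) L), ψ.f L (φ.f L P) = P + P)
    (h3 : ∀ (L : Type) [Field L] [Algebra ℚ L] (P : Pt (WI A B) L),
      ψ.f L P = 0 → P = 0 ∨ P = T0 h L) (x : Sha (WI A B)) (hz : ψ.sha x = 0) :
    ∃ d : ℤ, Squarefree d ∧ ∃ hd : coc h d ∈ shaCoc (WI A B),
      cls (WI A B) ⟨coc h d, hd⟩ = x := by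
  obtain ⟨c, rfl⟩ := cls_surj x
  rw [sha_cls, cls_zero_iff] at hz
  obtain ⟨Q, hQ⟩ := hz
  obtain ⟨R, hR⟩ := div2 h hA hB Q
  have hP : ψ.f _ (φ.f _ R) = Q := by rw [h2, hR]
  obtain ⟨P, hPd⟩ : ∃ P, P = φ.f (AlgebraicClosure ℚ) R := ⟨_, rfl⟩
  rw [← hPd] at hP
  let c' : Coch (WI A B) := fun σ => c.1 σ - (act (WI A B) σ.toAlgHom P - P)
  have hd : IsCob (WI A B) (c.1 - c') := by
    refine ⟨P, fun σ => ?_⟩
    change c.1 σ - (c.1 σ - (act (WI A B) σ.toAlgHom P - P)) = _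
    abel
  have hsub : c' = c.1 - (c.1 - c') := by abel
  have hbc : c.1 - c' ∈ shaCoc (WI A B) := cob_shaCoc hd
  have hc' : c' ∈ shaCoc (WI A B) := by
    rw [hsub]
    exact sub_mem c.2 hbc
  have hv : ∀ σ, c' σ = 0 ∨ c' σ = T0 h (AlgebraicClosure ℚ) := by
    intro σ
    apply h3
    change ψ.f _ (c.1 σ - (act (WI A B) σ.toAlgHom P - P)) = 0
    have h4 : ψ.f _ (c.1 σ) = act (EQ A B) σ.toAlgHom Q - Q := hQ σ
    rw [map_sub, map_sub, ← ψ.nat, hP, h4, sub_self]
  obtain ⟨d, hsq, hcd⟩ := coc_of h hc'.1 hv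
  rw [hcd] at hc'
  refine ⟨d, hsq, hc', ?_⟩
  apply cls_eq
  have e1 : coc h d - c.1 = -(c.1 - c') := by
    rw [← hcd]
    abel
  rw [show ((⟨coc h d, hc'⟩ : shaCoc (WI A B)) : Coch (WI A B)) = coc h d from rfl, e1]
  exact cob_neg hd

end

/-- the map on the Tate-Shafarevich groups: composed with the dual map it is the multiplication by
two, and its kernel consists of classes of `χ_d T`, `d` in the 2-isogeny Selmer set -/
theorem exists_sha {A B : ℤ} (h : A ≠ B) (hA : A ≠ 0) (hB : B ≠ 0) :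
    ∃ (f : Sha (WI A B) →+ Sha (EQ A B)) (g : Sha (EQ A B) →+ Sha (WI A B)),
      (∀ x, g (f x) = x + x) ∧ ∀ x, f x = 0 → ∃ d ∈ SQ (-(A + B)) (A * B),
        ∃ hd : coc h d ∈ shaCoc (WI A B), cls (WI A B) ⟨coc h d, hd⟩ = x := by
  obtain ⟨ψ, φ, h1, h2, h3⟩ := exists_NH h hA hB
  refine ⟨ψ.sha, φ.sha, fun x => ?_, fun x hx => ?_⟩
  · obtain ⟨c, rfl⟩ := cls_surj x
    rw [sha_cls, sha_cls, ← cls_add]
    apply congrArg
    apply Subtype.ext
    funext σ
    exact h1 _ (c.1 σ)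
  · obtain ⟨d, hsq, hd, he⟩ := ker0 h hA hB ψ φ h2 h3 x hx
    exact ⟨d, Pool.Agent.Y500.IS.lqu A B d hA hB h hsq
      (Pool.Agent.Y497.IS.lcb A B h d hA hB hsq.ne_zero ℝ hd.2.2)
      (fun p _ => Pool.Agent.Y497.IS.lcb A B h d hA hB hsq.ne_zero ℚ_[p] (hd.2.1 p)), hd, he⟩

/-- counting with a homomorphism with a finite kernel -/
lemma card_tor {G' G : Type} [AddCommGroup G'] [AddCommGroup G] (f : G' →+ G) (K : Set G')
    (hK : K.Finite) (hker : ∀ x, f x = 0 → x ∈ K) (n : ℕ)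
    (hfin : Finite {y : G // n • y = 0}) :
    Finite {x : G' // n • x = 0} ∧
      Nat.card {x : G' // n • x = 0} ≤ K.ncard * Nat.card {y : G // n • y = 0} := by
  classical
  let F : {x : G' // n • x = 0} → {y : G // n • y = 0} := fun x => ⟨f x.1, by
    rw [← map_nsmul, x.2, map_zero]⟩
  let s : {y : G // n • y = 0} → G' := fun y => if hy : ∃ x : {x : G' // n • x = 0}, F x = y then
    hy.choose.1 else 0
  have hs : ∀ x, f (s (F x)) = f x.1 := by
    intro x
    have hy : ∃ x' : {x : G' // n • x = 0}, F x' = F x := ⟨x, rfl⟩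
    have h1 : s (F x) = hy.choose.1 := dif_pos hy
    rw [h1]
    exact congrArg Subtype.val hy.choose_spec
  let H : {x : G' // n • x = 0} → K × {y : G // n • y = 0} := fun x =>
    (⟨x.1 - s (F x), hker _ (by rw [map_sub, hs, sub_self])⟩, F x)
  have hH : Function.Injective H := by
    intro x x' hxx
    have h1 : F x = F x' := congrArg Prod.snd hxx
    have h2 : x.1 - s (F x) = x'.1 - s (F x') := congrArg (fun z => (z.1 : G')) hxx
    rw [h1] at h2
    exact Subtype.ext (sub_left_injective h2)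
  have hKf : Finite K := hK
  have hfin' : Finite (K × {y : G // n • y = 0}) := inferInstance
  refine ⟨Finite.of_injective H hH, ?_⟩
  have h3 := Nat.card_le_card_of_injective H hH
  rw [Nat.card_prod, Nat.card_coe_set_eq] at h3
  exact h3

open Classical in
/-- the 2-torsion -/
theorem sha_two {A B : ℤ} (h : A ≠ B) (hA : A ≠ 0) (hB : B ≠ 0)
    (hfin : Finite (ShaTor (EQ A B) 2)) : Finite (ShaTor (WI A B) 2) ∧
      Nat.card (ShaTor (WI A B) 2) ≤
        2 ^ (fo (-(A + B)) (A * B) + 1) * Nat.card (ShaTor (EQ A B) 2) := by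
  obtain ⟨f, g, -, h2⟩ := exists_sha h hA hB
  have hS : (SQ (-(A + B)) (A * B)).Finite :=
    Pool.Agent.Y500.IS.sqf (-(A + B)) (A * B) (mul_ne_zero hA hB)
  let F : SQ (-(A + B)) (A * B) → Sha (WI A B) := fun d =>
    if hd : coc h d.1 ∈ shaCoc (WI A B) then cls (WI A B) ⟨coc h d.1, hd⟩ else 0
  have hfS : Finite (SQ (-(A + B)) (A * B)) := hS
  have hK : (Set.range F).Finite := Set.finite_range F
  have hker : ∀ x, f x = 0 → x ∈ Set.range F := by
    intro x hx
    obtain ⟨d, hd, hd', rfl⟩ := h2 x hx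
    refine ⟨⟨d, hd⟩, ?_⟩
    simp only [F]
    rw [dif_pos hd']
  obtain ⟨h3, h4⟩ := card_tor f (Set.range F) hK hker 2 hfin
  refine ⟨h3, h4.trans (Nat.mul_le_mul_right _ ?_)⟩
  have h5 : (Set.range F).ncard ≤ (SQ (-(A + B)) (A * B)).ncard := by
    rw [← Nat.card_coe_set_eq, ← Nat.card_coe_set_eq]
    exact Finite.card_range_le F
  refine h5.trans ?_
  unfold fo
  exact (Nat.lt_pow_succ_log_self (by norm_num) _).le

/-- the torsion of order a power of two -/
theorem sha_pow {A B : ℤ} (h : A ≠ B) (hA : A ≠ 0) (hB : B ≠ 0)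
    (hfin : ∀ j : ℕ, Finite (ShaTor (EQ A B) (2 ^ j))) (j : ℕ) :
    Finite (ShaTor (WI A B) (2 ^ j)) ∧ Nat.card (ShaTor (WI A B) (2 ^ j)) ≤
        Nat.card (ShaTor (WI A B) 2) * Nat.card (ShaTor (EQ A B) (2 ^ j)) := by
  obtain ⟨f, g, h1, -⟩ := exists_sha h hA hB
  have hf1 : Finite (ShaTor (EQ A B) 2) := by
    have := hfin 1
    rwa [pow_one] at this
  have hK : ({x : Sha (WI A B) | 2 • x = 0}).Finite := (sha_two h hA hB hf1).1
  have hker : ∀ x, f x = 0 → x ∈ {x : Sha (WI A B) | 2 • x = 0} := by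
    intro x hx
    change 2 • x = 0
    rw [two_nsmul, ← h1, hx, map_zero]
  exact card_tor f _ hK hker (2 ^ j) (hfin j)

/-- a lower bound from an injection -/
lemma le_card {W : WeierstrassCurve ℚ} {k : ℕ} (φ : (Fin k → ZMod 2) →+ Sha W)
    (hφ : Function.Injective φ) (hfin : Finite (ShaTor W 2)) :
    2 ^ k ≤ Nat.card (ShaTor W 2) := by
  have h2 : ∀ y : Fin k → ZMod 2, 2 • y = 0 := by
    intro y
    funext i
    rw [Pi.smul_apply, Pi.zero_apply, two_nsmul]
    exact CharTwo.add_self_eq_zero _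
  let F : (Fin k → ZMod 2) → ShaTor W 2 := fun y => ⟨φ y, by rw [← map_nsmul, h2, map_zero]⟩
  have hF : Function.Injective F := fun y y' hy => hφ (congrArg Subtype.val hy)
  have h3 := Nat.card_le_card_of_injective F hF
  simpa using h3

/-! ### Ranks -/

lemma rank_le {M N : Type} [AddCommGroup M] [AddCommGroup N] [Module.Finite ℤ N] (f : M →+ N)
    (hf : ∀ x, f x = 0 → x + x = 0) : Module.finrank ℤ M ≤ Module.finrank ℤ N := by
  let F : M →ₗ[ℤ] N := f.toIntLinearMap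
  have h1 : Module.rank ℤ (LinearMap.ker F) = 0 := by
    rw [rank_eq_zero_iff]
    rintro ⟨x, hx⟩
    refine ⟨2, two_ne_zero, ?_⟩
    apply Subtype.ext
    change (2 : ℤ) • x = 0
    rw [two_smul]
    exact hf x hx
  have h2 := rank_quotient_add_rank_of_isDomain (LinearMap.ker F)
  rw [h1, add_zero] at h2
  have h3 : Module.rank ℤ (M ⧸ LinearMap.ker F) ≤ Module.rank ℤ N :=
    LinearMap.rank_le_of_injective ((LinearMap.ker F).liftQ F le_rfl) (by
      rw [← LinearMap.ker_eq_bot]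
      exact Submodule.ker_liftQ_eq_bot _ _ _ le_rfl)
  rw [h2] at h3
  unfold Module.finrank
  exact Cardinal.toNat_le_toNat h3 (Module.rank_lt_aleph0 ℤ N)

end Pool.Agent.Q8.NS
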