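import Pool.Agent.Q8.NS.Rk
import Pool.Agent.Y676.IS.Cnt

/-!
# Almost all the coprime pairs
-/

set_option autoImplicit false
set_option linter.unusedSectionVars false

namespace Pool.Agent.Q8.NS

open Finset WeierstrassCurve

open Pool.Agent.TH841.SH.D

open Pool.Agent.TH841.LS (WI big_loglog)

open Pool.Agent.TH841.PT (EQ)

open Pool.Agent.TH841.NO (SQ fo)

open Pool.Agent.Y676.IS (tri tri_ne tri_cop tri_mul)

/-- `A, B, A - B ≠ 0`, and the properties of one pair -/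
def OK2 (R : ℕ) (κ δ l : ℝ) (A B : ℤ) : Prop :=
  A ≠ 0 ∧ B ≠ 0 ∧ A ≠ B ∧ OK1 R κ δ l A B

lemma OK2.mono {R R' : ℕ} {κ δ l : ℝ} {A B : ℤ} (h : OK2 R κ δ l A B) (hR : R ≤ R') :
    OK2 R' κ δ l A B := ⟨h.1, h.2.1, h.2.2.1, h.2.2.2.mono hR⟩

open Classical in
/-- one root -/
theorem one_root (D : ℤ) (hD : D ≠ 0) (δ ε : ℝ) (L : ℕ) (hδ : 0 < δ) (hε : 0 < ε) :
    ∃ R X0 : ℕ, ∀ (N1 N2 : ℤ) (X : ℕ), X0 ≤ X → N1.natAbs ≤ X ^ L → N2.natAbs ≤ X ^ L →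
      (((Icc 1 X ×ˢ Icc 1 X).filter (fun t : ℕ × ℕ =>
        IsCoprime (N1 + (t.1 : ℤ)) (N2 + (t.2 : ℤ)) ∧
        ¬ OK2 R (3 / 2) δ (Real.log (Real.log X)) (D * (N1 + (t.1 : ℤ)))
          (D * (N2 + (t.2 : ℤ))))).card : ℝ) ≤ ε * X ^ 2 := by
  have havg := Pool.Agent.W307.FK.avgn_of Pool.Agent.W307.FK.expf
  obtain ⟨R1, X1, g1⟩ := Pool.Agent.TH841.LS.large6 Pool.Agent.TH841.LS.CNT2Xf.cnt2x havg D hD δ
    (ε / 2) L hδ (by positivity)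
  obtain ⟨R2, X2, g2⟩ := Pool.Agent.TH841.NO.norder2 Pool.Agent.TH841.NO.QULf.qul
    Pool.Agent.TH841.NO.QUMf.qum Pool.Agent.TH841.NO.LWAf.lwa Pool.Agent.TH841.NO.LWBf.lwb
    Pool.Agent.TH841.NO.LWBf.lwc Pool.Agent.TH841.NO.PRf.pra Pool.Agent.TH841.NO.PRf.prb
    Pool.Agent.TH841.NO.LIN2f.lin2 Pool.Agent.TH841.LS.CNT2Xf.cnt2x
    Pool.Agent.TH841.NO.CNTU2f.cntu2 havg D hD (δ / 2) (ε / 2) L (by positivity) (by positivity)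
  obtain ⟨M3, hM3⟩ := big_loglog (δ / 2) ((R1 : ℝ) + 2) (by positivity)
  refine ⟨R1 + 1, X1 + X2 + M3, fun N1 N2 X hX hN1 hN2 => ?_⟩
  have b1 := g1 N1 N2 X (by omega) hN1 hN2
  have b2 := g2 N1 N2 X (by omega) hN1 hN2
  have h3 := hM3 X (by omega)
  set S1 := (Icc 1 X ×ˢ Icc 1 X).filter (fun t : ℕ × ℕ =>
        IsCoprime (N1 + (t.1 : ℤ)) (N2 + (t.2 : ℤ)) ∧
        ¬ ∀ A B : ℤ, A = D * (N1 + (t.1 : ℤ)) → B = D * (N2 + (t.2 : ℤ)) →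
        A ≠ 0 ∧ B ≠ 0 ∧ A ≠ B ∧
        (∀ j : ℕ, Finite (ShaTor (EQ A B) (2 ^ j))) ∧
        (∀ j : ℕ, 1 ≤ j → (2 : ℝ) ^ rk (EQ A B) *
          (Nat.card (ShaTor (EQ A B) (2 ^ j)) : ℝ) ^ ((1 : ℝ) / j) ≤ 2 ^ (R1 + 1)) ∧
        ∃ k : ℕ, (3 / 2 - δ) * Real.log (Real.log X) ≤ k ∧
        ∃ φ : (Fin k → ZMod 2) →+ Sha (WI A B), Function.Injective φ) with hS1
  set S2 := (Icc 1 X ×ˢ Icc 1 X).filter (fun t : ℕ × ℕ =>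
        IsCoprime (N1 + (t.1 : ℤ)) (N2 + (t.2 : ℤ)) ∧
        ¬ ∀ A B : ℤ, A = D * (N1 + (t.1 : ℤ)) → B = D * (N2 + (t.2 : ℤ)) →
        A ≠ 0 ∧ B ≠ 0 ∧ A ≠ B ∧
        (3 / 2 - δ / 2) * Real.log (Real.log X) ≤ fo (-(A + B)) (A * B) ∧
        (fo (-(A + B)) (A * B) : ℝ) ≤ (3 / 2 + δ / 2) * Real.log (Real.log X) ∧
        fo (2 * (A + B)) ((A - B) ^ 2) ≤ R2 ∧ rk (EQ A B) ≤ R2) with hS2
  have hsub : (Icc 1 X ×ˢ Icc 1 X).filter (fun t : ℕ × ℕ =>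
        IsCoprime (N1 + (t.1 : ℤ)) (N2 + (t.2 : ℤ)) ∧
        ¬ OK2 (R1 + 1) (3 / 2) δ (Real.log (Real.log X)) (D * (N1 + (t.1 : ℤ)))
          (D * (N2 + (t.2 : ℤ)))) ⊆ S1 ∪ S2 := by
    intro t ht
    obtain ⟨ht1, ht2, ht3⟩ := mem_filter.1 ht
    by_contra hcon
    rw [mem_union, not_or, hS1, hS2, mem_filter, mem_filter] at hcon
    obtain ⟨c1, c2⟩ := hcon
    apply ht3
    have d1 := not_not.1 (fun h => c1 ⟨ht1, ht2, h⟩)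
    have d2 := not_not.1 (fun h => c2 ⟨ht1, ht2, h⟩)
    obtain ⟨a1, a2, a3, a4, a5, a6⟩ := d1 _ _ rfl rfl
    obtain ⟨-, -, -, -, l2, -, -⟩ := d2 _ _ rfl rfl
    exact ⟨a1, a2, a3, one_pair a3 a1 a2 a4 a5 a6 l2 h3⟩
  have hcard : (((Icc 1 X ×ˢ Icc 1 X).filter (fun t : ℕ × ℕ =>
        IsCoprime (N1 + (t.1 : ℤ)) (N2 + (t.2 : ℤ)) ∧
        ¬ OK2 (R1 + 1) (3 / 2) δ (Real.log (Real.log X)) (D * (N1 + (t.1 : ℤ)))
          (D * (N2 + (t.2 : ℤ))))).card : ℝ) ≤ S1.card + S2.card := by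
    exact_mod_cast (card_le_card hsub).trans (card_union_le _ _)
  linarith

/-! ### The three roots -/

/-- the shifted pair -/
def bxn (i : Fin 3) (X : ℕ) (t : ℕ × ℕ) : ℕ × ℕ :=
  ![t, (X + 1 - t.1, t.2 + (X + 1) - t.1), (X + 1 - t.2, t.1 + (X + 1) - t.2)] i

/-- the shifts -/
def Nn (i : Fin 3) (N1 N2 : ℤ) (X : ℕ) : ℤ × ℤ :=
  ![(N1, N2), (-N1 - ((X : ℤ) + 1), N2 - N1 - ((X : ℤ) + 1)),
    (-N2 - ((X : ℤ) + 1), N1 - N2 - ((X : ℤ) + 1))] i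

lemma bxn_tri (i : Fin 3) (N1 N2 : ℤ) {X : ℕ} {t : ℕ × ℕ} (h1 : t.1 ≤ X) (h2 : t.2 ≤ X) :
    (Nn i N1 N2 X).1 + ((bxn i X t).1 : ℤ) = (tri i (N1 + (t.1 : ℤ)) (N2 + (t.2 : ℤ))).1 ∧
      (Nn i N1 N2 X).2 + ((bxn i X t).2 : ℤ) = (tri i (N1 + (t.1 : ℤ)) (N2 + (t.2 : ℤ))).2 := by
  fin_cases i
  · constructor
    · rfl
    · rfl
  · constructor
    · change -N1 - ((X : ℤ) + 1) + ((X + 1 - t.1 : ℕ) : ℤ) = -(N1 + (t.1 : ℤ))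
      omega
    · change N2 - N1 - ((X : ℤ) + 1) + ((t.2 + (X + 1) - t.1 : ℕ) : ℤ) =
        N2 + (t.2 : ℤ) - (N1 + (t.1 : ℤ))
      omega
  · constructor
    · change -N2 - ((X : ℤ) + 1) + ((X + 1 - t.2 : ℕ) : ℤ) = -(N2 + (t.2 : ℤ))
      omega
    · change N1 - N2 - ((X : ℤ) + 1) + ((t.1 + (X + 1) - t.2 : ℕ) : ℤ) =
        N1 + (t.1 : ℤ) - (N2 + (t.2 : ℤ))
      omega

lemma bxn_mem (i : Fin 3) {X : ℕ} {t : ℕ × ℕ} (h : t ∈ Icc 1 X ×ˢ Icc 1 X) :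
    bxn i X t ∈ Icc 1 (2 * X) ×ˢ Icc 1 (2 * X) := by
  rw [mem_product, mem_Icc, mem_Icc] at h ⊢
  fin_cases i
  · change (1 ≤ t.1 ∧ t.1 ≤ 2 * X) ∧ (1 ≤ t.2 ∧ t.2 ≤ 2 * X)
    omega
  · change (1 ≤ X + 1 - t.1 ∧ X + 1 - t.1 ≤ 2 * X) ∧ (1 ≤ t.2 + (X + 1) - t.1 ∧
      t.2 + (X + 1) - t.1 ≤ 2 * X)
    omega
  · change (1 ≤ X + 1 - t.2 ∧ X + 1 - t.2 ≤ 2 * X) ∧ (1 ≤ t.1 + (X + 1) - t.2 ∧
      t.1 + (X + 1) - t.2 ≤ 2 * X)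
    omega

lemma bxn_inj (i : Fin 3) {X : ℕ} {t t' : ℕ × ℕ} (h : t ∈ Icc 1 X ×ˢ Icc 1 X)
    (h' : t' ∈ Icc 1 X ×ˢ Icc 1 X) (he : bxn i X t = bxn i X t') : t = t' := by
  rw [mem_product, mem_Icc, mem_Icc] at h h'
  fin_cases i
  · exact he
  · have e1 : X + 1 - t.1 = X + 1 - t'.1 := congrArg Prod.fst he
    have e2 : t.2 + (X + 1) - t.1 = t'.2 + (X + 1) - t'.1 := congrArg Prod.snd he
    exact Prod.ext (by omega) (by omega)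
  · have e1 : X + 1 - t.2 = X + 1 - t'.2 := congrArg Prod.fst he
    have e2 : t.1 + (X + 1) - t.2 = t'.1 + (X + 1) - t'.2 := congrArg Prod.snd he
    exact Prod.ext (by omega) (by omega)

lemma Nn_le (i : Fin 3) {N1 N2 : ℤ} {X L : ℕ} (hX : 3 ≤ X) (h1 : N1.natAbs ≤ X ^ L)
    (h2 : N2.natAbs ≤ X ^ L) : (Nn i N1 N2 X).1.natAbs ≤ (2 * X) ^ (L + 1) ∧
      (Nn i N1 N2 X).2.natAbs ≤ (2 * X) ^ (L + 1) := by
  have h3 : 1 ≤ X ^ L := Nat.one_le_pow _ _ (by omega)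
  have h4 : 3 * X ^ L ≤ X ^ (L + 1) := by
    rw [pow_succ, mul_comm]
    exact Nat.mul_le_mul_left _ hX
  have h5 : X ≤ X ^ (L + 1) := by
    rw [pow_succ]
    exact Nat.le_mul_of_pos_left _ (by omega)
  have h6 : 2 * X ^ (L + 1) ≤ (2 * X) ^ (L + 1) := by
    rw [mul_pow]
    refine Nat.mul_le_mul_right _ ?_
    rw [pow_succ]
    have := Nat.one_le_pow L 2 (by norm_num)
    omega
  have k1 : N1.natAbs ≤ (2 * X) ^ (L + 1) := by omega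
  have k2 : N2.natAbs ≤ (2 * X) ^ (L + 1) := by omega
  fin_cases i
  · exact ⟨k1, k2⟩
  · change (-N1 - ((X : ℤ) + 1)).natAbs ≤ _ ∧ (N2 - N1 - ((X : ℤ) + 1)).natAbs ≤ _
    constructor <;> omega
  · change (-N2 - ((X : ℤ) + 1)).natAbs ≤ _ ∧ (N1 - N2 - ((X : ℤ) + 1)).natAbs ≤ _
    constructor <;> omega

/-- comparison of `log log (2 X)` and `log log X` -/
lemma ll_cmp {X : ℕ} (hX : 3 ≤ X) : Real.log (Real.log X) ≤ Real.log (Real.log (2 * X : ℕ)) ∧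
    Real.log (Real.log (2 * X : ℕ)) ≤ Real.log (Real.log X) + 1 := by
  have hXr : (3 : ℝ) ≤ X := by exact_mod_cast hX
  have l1 : 1 < Real.log X := by
    have h4 : Real.exp 1 < X := lt_of_lt_of_le (Real.exp_one_lt_d9.trans (by norm_num)) hXr
    have := Real.log_lt_log (Real.exp_pos 1) h4
    rwa [Real.log_exp] at this
  have h2 : ((2 * X : ℕ) : ℝ) = 2 * X := by push_cast; ring
  rw [h2]
  have l2 : Real.log X ≤ Real.log (2 * X) := Real.log_le_log (by linarith) (by linarith)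
  have l3 : Real.log (2 * X) ≤ 2 * Real.log X := by
    rw [Real.log_mul (by norm_num) (by linarith)]
    have h5 : Real.log 2 ≤ Real.log X := Real.log_le_log (by norm_num) (by linarith)
    linarith
  refine ⟨Real.log_le_log (by linarith) l2, ?_⟩
  have h4 : Real.log (Real.log (2 * X)) ≤ Real.log (2 * Real.log X) :=
    Real.log_le_log (by linarith) l3
  have h6 : Real.log (2 * Real.log (X : ℝ)) = Real.log 2 + Real.log (Real.log X) :=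
    Real.log_mul (by norm_num) (by linarith)
  rw [h6] at h4
  have h5 : Real.log 2 < 1 := by
    have := Real.log_two_lt_d9
    linarith
  linarith

lemma OK1.chg {R : ℕ} {κ δ l l' : ℝ} {A B : ℤ} (h : OK1 R κ (δ / 2) l' A B) (hκ : 0 ≤ κ)
    (hδ : 0 < δ) (hδ' : δ ≤ 1) (hκ1 : 1 ≤ κ) (h1 : l ≤ l') (h2 : l' ≤ l + 1) (h3 : κ + 1 ≤ δ / 2 * l) :
    OK1 R κ δ l A B := by
  obtain ⟨a1, a2, a3, a4, a5, a6, a7, a8⟩ := h
  refine ⟨a1, a2, a3, a4, a5, le_trans ?_ a6, a7.trans ?_, a8⟩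
  · nlinarith
  · nlinarith

open Classical in
/-- the three roots -/
theorem three_roots (D : ℤ) (hD : D ≠ 0) (δ ε : ℝ) (L : ℕ) (hδ : 0 < δ) (hδ1 : δ ≤ 1)
    (hε : 0 < ε) :
    ∃ R X0 : ℕ, ∀ (N1 N2 : ℤ) (X : ℕ), X0 ≤ X → N1.natAbs ≤ X ^ L → N2.natAbs ≤ X ^ L →
      (((Icc 1 X ×ˢ Icc 1 X).filter (fun t : ℕ × ℕ =>
        IsCoprime (N1 + (t.1 : ℤ)) (N2 + (t.2 : ℤ)) ∧
        ¬ ∀ i : Fin 3, OK2 R (3 / 2) δ (Real.log (Real.log X))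
          (tri i (D * (N1 + (t.1 : ℤ))) (D * (N2 + (t.2 : ℤ)))).1
          (tri i (D * (N1 + (t.1 : ℤ))) (D * (N2 + (t.2 : ℤ)))).2)).card : ℝ) ≤ ε * X ^ 2 := by
  obtain ⟨R, X0, h⟩ := one_root D hD (δ / 2) (ε / 12) (L + 1) (by positivity) (by positivity)
  obtain ⟨M3, hM3⟩ := big_loglog (δ / 2) (3 / 2 + 1) (by positivity)
  refine ⟨R, X0 + M3 + 3, fun N1 N2 X hX hN1 hN2 => ?_⟩
  have h3 := hM3 X (by omega)
  obtain ⟨l1, l2⟩ := ll_cmp (X := X) (by omega)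
  let S : Fin 3 → Finset (ℕ × ℕ) := fun i => (Icc 1 X ×ˢ Icc 1 X).filter (fun t : ℕ × ℕ =>
        IsCoprime (N1 + (t.1 : ℤ)) (N2 + (t.2 : ℤ)) ∧
        ¬ OK2 R (3 / 2) δ (Real.log (Real.log X))
          (tri i (D * (N1 + (t.1 : ℤ))) (D * (N2 + (t.2 : ℤ)))).1
          (tri i (D * (N1 + (t.1 : ℤ))) (D * (N2 + (t.2 : ℤ)))).2)
  have hS : ∀ i, ((S i).card : ℝ) ≤ ε / 3 * X ^ 2 := by
    intro i
    obtain ⟨n1, n2⟩ := Nn_le i (by omega) hN1 hN2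
    have h4 := h (Nn i N1 N2 X).1 (Nn i N1 N2 X).2 (2 * X) (by omega) n1 n2
    have hsub : (S i).image (bxn i X) ⊆ (Icc 1 (2 * X) ×ˢ Icc 1 (2 * X)).filter
        (fun t : ℕ × ℕ => IsCoprime ((Nn i N1 N2 X).1 + (t.1 : ℤ)) ((Nn i N1 N2 X).2 + (t.2 : ℤ)) ∧
        ¬ OK2 R (3 / 2) (δ / 2) (Real.log (Real.log (2 * X : ℕ)))
          (D * ((Nn i N1 N2 X).1 + (t.1 : ℤ))) (D * ((Nn i N1 N2 X).2 + (t.2 : ℤ)))) := by
      intro t' ht'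
      obtain ⟨t, ht, rfl⟩ := mem_image.1 ht'
      obtain ⟨ht1, ht2, ht3⟩ := mem_filter.1 ht
      have ht1' := ht1
      rw [mem_product, mem_Icc, mem_Icc] at ht1'
      obtain ⟨e1, e2⟩ := bxn_tri i N1 N2 ht1'.1.2 ht1'.2.2
      rw [mem_filter, e1, e2]
      refine ⟨bxn_mem i ht1, tri_cop i ht2, fun hcon => ht3 ?_⟩
      rw [tri_mul]
      exact ⟨hcon.1, hcon.2.1, hcon.2.2.1, hcon.2.2.2.chg (by norm_num) hδ hδ1 (by norm_num)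
        l1 l2 h3⟩
    have hcard := (card_le_card hsub)
    rw [card_image_of_injOn (fun t ht t' ht' he =>
      bxn_inj i (mem_filter.1 (mem_coe.1 ht)).1 (mem_filter.1 (mem_coe.1 ht')).1 he)] at hcard
    have h5 : ((S i).card : ℝ) ≤ ε / 12 * ((2 * X : ℕ) : ℝ) ^ 2 :=
      le_trans (by exact_mod_cast hcard) h4
    refine h5.trans (le_of_eq ?_)
    push_cast
    ring
  have hsub : (Icc 1 X ×ˢ Icc 1 X).filter (fun t : ℕ × ℕ =>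
        IsCoprime (N1 + (t.1 : ℤ)) (N2 + (t.2 : ℤ)) ∧
        ¬ ∀ i : Fin 3, OK2 R (3 / 2) δ (Real.log (Real.log X))
          (tri i (D * (N1 + (t.1 : ℤ))) (D * (N2 + (t.2 : ℤ)))).1
          (tri i (D * (N1 + (t.1 : ℤ))) (D * (N2 + (t.2 : ℤ)))).2) ⊆ univ.biUnion S := by
    intro t ht
    obtain ⟨ht1, ht2, ht3⟩ := mem_filter.1 ht
    rw [not_forall] at ht3
    obtain ⟨i, hi⟩ := ht3
    exact mem_biUnion.2 ⟨i, mem_univ _, mem_filter.2 ⟨ht1, ht2, hi⟩⟩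
  have h6 : (((Icc 1 X ×ˢ Icc 1 X).filter (fun t : ℕ × ℕ =>
        IsCoprime (N1 + (t.1 : ℤ)) (N2 + (t.2 : ℤ)) ∧
        ¬ ∀ i : Fin 3, OK2 R (3 / 2) δ (Real.log (Real.log X))
          (tri i (D * (N1 + (t.1 : ℤ))) (D * (N2 + (t.2 : ℤ)))).1
          (tri i (D * (N1 + (t.1 : ℤ))) (D * (N2 + (t.2 : ℤ)))).2)).card : ℝ) ≤
      ∑ i, ((S i).card : ℝ) := by
    exact_mod_cast (card_le_card hsub).trans card_biUnion_le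
  refine h6.trans ((sum_le_sum fun i _ => hS i).trans (le_of_eq ?_))
  rw [sum_const, card_univ, Fintype.card_fin, nsmul_eq_mul]
  push_cast
  ring

end Pool.Agent.Q8.NS
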